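import Mathlib
import Pool.Agent.Y300.FC.Core

/-!
# Electrostatic field of `N` charges inside the ball: a smaller exponent

`Φ_N(r) ≥ c r^(1.9079 √N)` for all `0 < r < 1` and `N ≥ N₀`, with `c > 0` and `N₀` independent of
`r`; in particular `Φ_N(r) > r^((2 - 23/250) √N)` for all large `N`.

The proof is the one of `FaradayCage` (linear programming bound with a test function whose
Legendre coefficients are explicit: a combination of derivatives of the generating function of the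
Legendre polynomials), with a test function of degree 17 found by linear programming: the symbol
`Th` is negative on `[31/2, ∞)`, almost zero near `28`. The exponent `√(2 π / √3) ≈ 1.9046` (the one
of the hexagonal lattice) is a lower bound for what the method can give.
-/

set_option autoImplicit false

namespace Pool.Agent.Results.MP_9d12fbd9_an.SmallerExponent

open Pool.Agent.Helper858.Core (gr Q)
open Pool.Agent.Y300.FC.Core Set Filter Topology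

/-- The potential `U(x, Z) = (1/N) ∑ⱼ 1/|ζⱼ - x|` of `N` charges `1/N` at the points `ζⱼ`. -/
noncomputable def potential {N : ℕ} (ζ : Fin N → EuclideanSpace ℝ (Fin 3)) (x : EuclideanSpace ℝ (Fin 3)) : ℝ :=
  (1 / (N : ℝ)) * ∑ j, 1 / ‖ζ j - x‖

/-- The field `E(x, Z) = - grad U(x, Z)`. -/
noncomputable def field {N : ℕ} (ζ : Fin N → EuclideanSpace ℝ (Fin 3)) (x : EuclideanSpace ℝ (Fin 3)) : EuclideanSpace ℝ (Fin 3) :=
  - gradient (potential ζ) x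

/-- `Φ_N(r)`: the infimum over all `N`-tuples of points of the unit sphere of the supremum of
the field strength over the sphere of radius `r`. -/
noncomputable def Phi (N : ℕ) (r : ℝ) : ℝ :=
  ⨅ ζ : Fin N → Metric.sphere (0 : EuclideanSpace ℝ (Fin 3)) 1,
    ⨆ x : Metric.sphere (0 : EuclideanSpace ℝ (Fin 3)) r, ‖field (fun j => (ζ j : EuclideanSpace ℝ (Fin 3))) x‖

lemma hasGradientAt_one (a x : EuclideanSpace ℝ (Fin 3)) (h : a - x ≠ 0) :
    HasGradientAt (fun x : EuclideanSpace ℝ (Fin 3) => 1 / ‖a - x‖) ((‖a - x‖ ^ 2) ^ (-(3 / 2) : ℝ) • (a - x)) x := by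
  have hpos : 0 < ‖a - x‖ ^ 2 := by positivity
  have h1 : HasFDerivAt (fun x : EuclideanSpace ℝ (Fin 3) => a - x) (-(ContinuousLinearMap.id ℝ (EuclideanSpace ℝ (Fin 3)))) x := by
    have := (hasFDerivAt_id (𝕜 := ℝ) x).const_sub a
    exact this
  have h2 := h1.norm_sq
  have h3 := h2.rpow_const (p := (-(1/2) : ℝ)) (Or.inl hpos.ne')
  have e : (fun x : EuclideanSpace ℝ (Fin 3) => 1 / ‖a - x‖) = fun x : EuclideanSpace ℝ (Fin 3) => (‖a - x‖ ^ 2) ^ (-(1/2) : ℝ) := by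
    funext z
    rw [Real.rpow_neg (by positivity), ← Real.sqrt_eq_rpow, Real.sqrt_sq (norm_nonneg _), one_div]
  rw [e, hasGradientAt_iff_hasFDerivAt]
  refine HasFDerivAt.congr_fderiv h3 ?_
  ext v
  have e2 : (-(1 / 2) - 1 : ℝ) = -(3 / 2) := by norm_num
  simp only [e2]
  simp
  ring

lemma hasGradientAt_potential {N : ℕ} (ζ : Fin N → EuclideanSpace ℝ (Fin 3)) (x : EuclideanSpace ℝ (Fin 3)) (h : ∀ j, ζ j - x ≠ 0) :
    HasGradientAt (potential ζ)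
      ((1 / (N : ℝ)) • ∑ j, (‖ζ j - x‖ ^ 2) ^ (-(3 / 2) : ℝ) • (ζ j - x)) x := by
  have h1 : ∀ j ∈ Finset.univ, HasFDerivAt (fun x : EuclideanSpace ℝ (Fin 3) => 1 / ‖ζ j - x‖)
      ((InnerProductSpace.toDual ℝ (EuclideanSpace ℝ (Fin 3))) ((‖ζ j - x‖ ^ 2) ^ (-(3 / 2) : ℝ) • (ζ j - x))) x :=
    fun j _ => (hasGradientAt_one (ζ j) x (h j)).hasFDerivAt
  have h2 := (HasFDerivAt.fun_sum h1).const_mul (1 / (N : ℝ))
  rw [hasGradientAt_iff_hasFDerivAt]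
  refine HasFDerivAt.congr_fderiv h2 ?_
  rw [map_smul, map_sum]

lemma rpow_cube {d : ℝ} (hd : 0 < d) : (d ^ 2) ^ (-(3 / 2) : ℝ) = 1 / d ^ 3 := by
  rw [← Real.rpow_natCast d 2, ← Real.rpow_mul hd.le, ← Real.rpow_natCast d 3, one_div,
    ← Real.rpow_neg hd.le]
  congr 1
  push_cast; norm_num

lemma sub_ne {a x : EuclideanSpace ℝ (Fin 3)} {r : ℝ} (ha : ‖a‖ = 1) (hx : ‖x‖ = r) (hr : r < 1) : a - x ≠ 0 := by
  intro h
  have : a = x := sub_eq_zero.mp h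
  rw [this, hx] at ha
  linarith

lemma field_eq {N : ℕ} (ζ : Fin N → EuclideanSpace ℝ (Fin 3)) (hζ : ∀ j, ‖ζ j‖ = 1) {x : EuclideanSpace ℝ (Fin 3)} {r : ℝ} (hx : ‖x‖ = r)
    (hr : r < 1) :
    field ζ x = - ((1 / (N : ℝ)) • ∑ j, (‖ζ j - x‖ ^ 2) ^ (-(3 / 2) : ℝ) • (ζ j - x)) := by
  unfold field
  rw [(hasGradientAt_potential ζ x fun j => sub_ne (hζ j) hx hr).gradient]

lemma norm_field_le {N : ℕ} (ζ : Fin N → EuclideanSpace ℝ (Fin 3)) (hζ : ∀ j, ‖ζ j‖ = 1) {x : EuclideanSpace ℝ (Fin 3)} {r : ℝ}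
    (hx : ‖x‖ = r) (hr : r < 1) : ‖field ζ x‖ ≤ 1 / (1 - r) ^ 2 := by
  rw [field_eq ζ hζ hx hr, norm_neg, norm_smul]
  have h1 : ∀ j, ‖(‖ζ j - x‖ ^ 2) ^ (-(3 / 2) : ℝ) • (ζ j - x)‖ ≤ 1 / (1 - r) ^ 2 := by
    intro j
    have hpos : 0 < ‖ζ j - x‖ := norm_pos_iff.mpr (sub_ne (hζ j) hx hr)
    have hge : 1 - r ≤ ‖ζ j - x‖ := by
      have := norm_sub_norm_le (ζ j) x
      rw [hζ j, hx] at this
      exact this
    rw [norm_smul, rpow_cube hpos, Real.norm_eq_abs, abs_of_pos (by positivity)]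
    have e : 1 / ‖ζ j - x‖ ^ 3 * ‖ζ j - x‖ = 1 / ‖ζ j - x‖ ^ 2 := by
      field_simp
    rw [e]
    have : 0 < 1 - r := by linarith
    gcongr
  have h2 : ‖∑ j, (‖ζ j - x‖ ^ 2) ^ (-(3 / 2) : ℝ) • (ζ j - x)‖ ≤ (N : ℝ) * (1 / (1 - r) ^ 2) := by
    calc ‖∑ j, (‖ζ j - x‖ ^ 2) ^ (-(3 / 2) : ℝ) • (ζ j - x)‖
        ≤ ∑ j, ‖(‖ζ j - x‖ ^ 2) ^ (-(3 / 2) : ℝ) • (ζ j - x)‖ := norm_sum_le _ _
      _ ≤ ∑ _j : Fin N, 1 / (1 - r) ^ 2 := Finset.sum_le_sum fun j _ => h1 j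
      _ = _ := by simp
  have hr1 : 0 < 1 - r := by linarith
  rcases Nat.eq_zero_or_pos N with h | h
  · subst h
    simp
    positivity
  · have hN : (0 : ℝ) < N := by exact_mod_cast h
    rw [Real.norm_eq_abs, abs_of_pos (by positivity)]
    calc 1 / (N : ℝ) * ‖∑ j, (‖ζ j - x‖ ^ 2) ^ (-(3 / 2) : ℝ) • (ζ j - x)‖
        ≤ 1 / (N : ℝ) * ((N : ℝ) * (1 / (1 - r) ^ 2)) := by gcongr
      _ = _ := by field_simp

lemma bddAbove_field {N : ℕ} (ζ : Fin N → Metric.sphere (0 : EuclideanSpace ℝ (Fin 3)) 1) {r : ℝ} (hr : r < 1) :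
    BddAbove (range fun x : Metric.sphere (0 : EuclideanSpace ℝ (Fin 3)) r => ‖field (fun j => (ζ j : EuclideanSpace ℝ (Fin 3))) x‖) := by
  refine ⟨1 / (1 - r) ^ 2, ?_⟩
  rintro _ ⟨x, rfl⟩
  exact norm_field_le _ (fun j => by simpa using (ζ j).2) (by simpa using x.2) hr

lemma inner_field {N : ℕ} (ζ : Fin N → EuclideanSpace ℝ (Fin 3)) (hζ : ∀ j, ‖ζ j‖ = 1) {r : ℝ} (h0 : 0 < r)
    (h1 : r < 1) (i : Fin N) :
    inner ℝ (- field ζ (r • ζ i)) (ζ i) = (1 / (N : ℝ)) * ∑ j,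
      (gr (fun j m => ζ j m) i j - r) *
        (1 - 2 * r * gr (fun j m => ζ j m) i j + r ^ 2) ^ (-(3 / 2) : ℝ) := by
  have hx : ‖r • ζ i‖ = r := by rw [norm_smul, hζ i, mul_one, Real.norm_eq_abs, abs_of_pos h0]
  rw [field_eq ζ hζ hx h1, neg_neg, real_inner_smul_left, sum_inner]
  congr 1
  refine Finset.sum_congr rfl fun j _ => ?_
  have hg : inner ℝ (ζ j) (ζ i) = gr (fun j m => ζ j m) i j := by
    simp [gr, PiLp.inner_apply]
  have hii : inner ℝ (ζ i) (ζ i) = (1 : ℝ) := by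
    rw [real_inner_self_eq_norm_sq, hζ i]; norm_num
  have hn : ‖ζ j - r • ζ i‖ ^ 2 = 1 - 2 * r * gr (fun j m => ζ j m) i j + r ^ 2 := by
    rw [norm_sub_sq_real, hx, hζ j, real_inner_smul_right, hg]
    ring
  rw [real_inner_smul_left, inner_sub_left, real_inner_smul_left, hg, hii, hn]
  ring

lemma Q_le_sup {N : ℕ} (hN : 0 < N) (ζ : Fin N → Metric.sphere (0 : EuclideanSpace ℝ (Fin 3)) 1) {r : ℝ} (h0 : 0 < r)
    (h1 : r < 1) :
    Q (fun j m => (ζ j : EuclideanSpace ℝ (Fin 3)) m) r ≤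
      ⨆ x : Metric.sphere (0 : EuclideanSpace ℝ (Fin 3)) r, ‖field (fun j => (ζ j : EuclideanSpace ℝ (Fin 3))) x‖ := by
  have hζ : ∀ j, ‖(ζ j : EuclideanSpace ℝ (Fin 3))‖ = 1 := fun j => by simpa using (ζ j).2
  set M := ⨆ x : Metric.sphere (0 : EuclideanSpace ℝ (Fin 3)) r, ‖field (fun j => (ζ j : EuclideanSpace ℝ (Fin 3))) x‖ with hM
  have hNr : (0 : ℝ) < N := by exact_mod_cast hN
  have hpt : ∀ i, inner ℝ (- field (fun j => (ζ j : EuclideanSpace ℝ (Fin 3))) (r • (ζ i : EuclideanSpace ℝ (Fin 3)))) (ζ i : EuclideanSpace ℝ (Fin 3)) ≤ M := by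
    intro i
    have hx : ‖r • (ζ i : EuclideanSpace ℝ (Fin 3))‖ = r := by
      rw [norm_smul, hζ i, mul_one, Real.norm_eq_abs, abs_of_pos h0]
    have hmem : r • (ζ i : EuclideanSpace ℝ (Fin 3)) ∈ Metric.sphere (0 : EuclideanSpace ℝ (Fin 3)) r := by simpa using hx
    calc inner ℝ (- field (fun j => (ζ j : EuclideanSpace ℝ (Fin 3))) (r • (ζ i : EuclideanSpace ℝ (Fin 3)))) (ζ i : EuclideanSpace ℝ (Fin 3))
        ≤ ‖- field (fun j => (ζ j : EuclideanSpace ℝ (Fin 3))) (r • (ζ i : EuclideanSpace ℝ (Fin 3)))‖ * ‖(ζ i : EuclideanSpace ℝ (Fin 3))‖ := real_inner_le_norm _ _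
      _ = ‖field (fun j => (ζ j : EuclideanSpace ℝ (Fin 3))) (r • (ζ i : EuclideanSpace ℝ (Fin 3)))‖ := by rw [hζ i, mul_one, norm_neg]
      _ ≤ M := le_ciSup (bddAbove_field ζ h1) (⟨r • (ζ i : EuclideanSpace ℝ (Fin 3)), hmem⟩ : Metric.sphere (0 : EuclideanSpace ℝ (Fin 3)) r)
  have hQ : Q (fun j m => (ζ j : EuclideanSpace ℝ (Fin 3)) m) r =
      (1 / (N : ℝ)) * ∑ i, inner ℝ (- field (fun j => (ζ j : EuclideanSpace ℝ (Fin 3))) (r • (ζ i : EuclideanSpace ℝ (Fin 3)))) (ζ i : EuclideanSpace ℝ (Fin 3)) := by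
    have : ∀ i, inner ℝ (- field (fun j => (ζ j : EuclideanSpace ℝ (Fin 3))) (r • (ζ i : EuclideanSpace ℝ (Fin 3)))) (ζ i : EuclideanSpace ℝ (Fin 3)) = _ :=
      fun i => inner_field (fun j => (ζ j : EuclideanSpace ℝ (Fin 3))) hζ h0 h1 i
    simp only [this, ← Finset.mul_sum]
    unfold Q
    rw [Fintype.card_fin]
    generalize (∑ i, ∑ j, (gr (fun j m => (ζ j : EuclideanSpace ℝ (Fin 3)) m) i j - r) *
        (1 - 2 * r * gr (fun j m => (ζ j : EuclideanSpace ℝ (Fin 3)) m) i j + r ^ 2) ^ (-(3 / 2) : ℝ)) = S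
    ring
  rw [hQ]
  calc (1 / (N : ℝ)) * ∑ i, inner ℝ (- field (fun j => (ζ j : EuclideanSpace ℝ (Fin 3))) (r • (ζ i : EuclideanSpace ℝ (Fin 3)))) (ζ i : EuclideanSpace ℝ (Fin 3))
      ≤ (1 / (N : ℝ)) * ∑ _i : Fin N, M := by
        gcongr with i _
        exact hpt i
    _ = M := by
        simp
        field_simp

/-- uniform lower bound -/
theorem Phi_lower : ∃ c : ℝ, 0 < c ∧ ∃ N₀ : ℕ, ∀ N : ℕ, N₀ ≤ N → ∀ r : ℝ, 0 < r → r < 1 →
    c * r ^ ((19079 / 10000 : ℝ) * Real.sqrt N) ≤ Phi N r := by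
  obtain ⟨c, hc, N₀, h⟩ := core
  refine ⟨c, hc, max 1 N₀, fun N hN r h0 h1 => ?_⟩
  have hN1 : 0 < N := (le_max_left 1 N₀).trans hN
  have hN2 : N₀ ≤ N := (le_max_right 1 N₀).trans hN
  have : Nonempty (Metric.sphere (0 : EuclideanSpace ℝ (Fin 3)) 1) :=
    (NormedSpace.sphere_nonempty.mpr zero_le_one).to_subtype
  unfold Phi
  refine le_ciInf fun ζ => ?_
  refine le_trans ?_ (Q_le_sup hN1 ζ h0 h1)
  refine h N hN2 _ (fun j => ?_) r h0 h1
  have : ‖(ζ j : EuclideanSpace ℝ (Fin 3))‖ = 1 := by simpa using (ζ j).2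
  rw [EuclideanSpace.norm_eq] at this
  have h2 := congrArg (fun z => z ^ 2) this
  simp only [one_pow] at h2
  rw [Real.sq_sqrt (by positivity)] at h2
  simpa using h2

/-- The supremum in `Phi` is over a bounded family, and the infimum is over a family bounded
below by zero: the real-valued `Phi` is the genuine inf-sup. -/
theorem Phi_le {N : ℕ} {r : ℝ} (h0 : 0 < r) (h1 : r < 1) : Phi N r ≤ 1 / (1 - r) ^ 2 := by
  have : Nonempty (Metric.sphere (0 : EuclideanSpace ℝ (Fin 3)) 1) :=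
    (NormedSpace.sphere_nonempty.mpr zero_le_one).to_subtype
  have : Nonempty (Metric.sphere (0 : EuclideanSpace ℝ (Fin 3)) r) :=
    (NormedSpace.sphere_nonempty.mpr h0.le).to_subtype
  have hb : BddBelow (range fun ζ : Fin N → Metric.sphere (0 : EuclideanSpace ℝ (Fin 3)) 1 =>
      ⨆ x : Metric.sphere (0 : EuclideanSpace ℝ (Fin 3)) r, ‖field (fun j => (ζ j : EuclideanSpace ℝ (Fin 3))) x‖) := by
    refine ⟨0, ?_⟩
    rintro _ ⟨ζ, rfl⟩
    exact Real.iSup_nonneg fun x => norm_nonneg _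
  obtain ⟨p⟩ := ‹Nonempty (Metric.sphere (0 : EuclideanSpace ℝ (Fin 3)) 1)›
  refine (ciInf_le hb (fun _ => p)).trans (ciSup_le fun x => ?_)
  exact norm_field_le _ (fun j => by simp) (by simpa using x.2) h1

/-- **Smaller exponent.** There are `c > 0` and `N₀` with `Φ_N(r) ≥ c r^(1.9079 √N)` for all
`N ≥ N₀` and all `0 < r < 1`. In particular for every `0 < r < 1` and all sufficiently large `N` one
has `Φ_N(r) > r^((2 - ε) √N)` with `ε = 23/250 = 0.092`. -/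
theorem result :
    (∃ c : ℝ, 0 < c ∧ ∃ N₀ : ℕ, ∀ N : ℕ, N₀ ≤ N → ∀ r : ℝ, 0 < r → r < 1 →
      c * r ^ ((19079 / 10000 : ℝ) * Real.sqrt N) ≤ Phi N r) ∧
    ∀ r : ℝ, 0 < r → r < 1 →
      ∀ᶠ N : ℕ in atTop, r ^ ((2 - 23 / 250 : ℝ) * Real.sqrt N) < Phi N r := by
  refine ⟨Phi_lower, ?_⟩
  intro r h0 h1
  obtain ⟨c, hc, N₀, h⟩ := Phi_lower
  have hlim : Tendsto (fun N : ℕ => r ^ ((1 / 10000 : ℝ) * Real.sqrt N)) atTop (𝓝 0) := by
    have h2 : Tendsto (fun N : ℕ => (1 / 10000 : ℝ) * Real.sqrt N) atTop atTop := by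
      apply Tendsto.const_mul_atTop (by norm_num)
      exact Real.tendsto_sqrt_atTop.comp tendsto_natCast_atTop_atTop
    exact (tendsto_rpow_atTop_of_base_lt_one r (by linarith) h1).comp h2
  filter_upwards [hlim.eventually_lt_const hc, eventually_ge_atTop N₀] with N hN1 hN2
  refine lt_of_lt_of_le ?_ (h N hN2 r h0 h1)
  have e : (2 - 23 / 250 : ℝ) * Real.sqrt N =
      (1 / 10000 : ℝ) * Real.sqrt N + (19079 / 10000 : ℝ) * Real.sqrt N := by
    ring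
  rw [e, Real.rpow_add h0]
  have : 0 < r ^ ((19079 / 10000 : ℝ) * Real.sqrt N) := Real.rpow_pos_of_pos h0 _
  gcongr

end Pool.Agent.Results.MP_9d12fbd9_an.SmallerExponent
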